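import Mathlib
import Pool.Agent.Helper97.RK.Stmts

/-! # Statements for `N_5(H) ≥ H ^ (5/12 - ε)` (MP_798d7d_nt, rank five)

FAMILY.  Binary quartics `g(x) = a x^4 + b x^3 + 3 c x^2 + d x + e` with the five square values
`a = y_0^2`, `g(-1) = y_1^2`, `g(0) = y_2^2`, `g(1) = y_3^2`, `g(2) = y_4^2`; the Jacobian of
`y^2 = g(x)` is `E_y : Y^2 = X^3 + A X + B` (`aA`, `aB` below, degrees 4 and 6 in `y`).
With `N_X` the ternary quadratic form `nf y X` one has `disc N_X = X^3 + A X + B`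
and `N_X(vv i) = y_i^2`.  So an integral point of `E_y` is an integral ternary form with five
prescribed square values and square discriminant.

KEY (EXTRA): at most `D n^(5+ε)` such forms of size `n^2` exist, apart from the known points.
PROOF: `N = β^2 - α γ` with integral linear forms (EMB), i.e. a binary quadratic form
`F_t = α(t) z^2 + 2 β(t) z w + γ(t) w^2` for each `t`; at the five nodes `F_i = L_i m_i`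
(FACT).  The form `F_(v6)` is definite (`ev N v6 ≤ - n^2`); measure vectors `z` by
`Q(z) = |F_(v6)(z)|`, `Q_i` = value at the root of `L_i`, chosen with `Q_i ≤ Q(m_i)`;
`a` = node with the smallest `Q_a`, `b` = node with the largest angle to it.
Count: `(α(v_i), α(v_j))` : `Q_a^2`;  `D = det(z_a, z_b)` and the divisions
`α(v_u) = p_u r_u` : `n^ε`;  `κ` mod `D` : `√(Q_a Q_b) / n`;  then `p_u'` : `√(Q_u / Q_a)`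
(three of them) and `r_u'` : `n^2 / √(Q_a Q_u)` (two of them), the last one is determined
by `F_b(z_b) = 0`.  Product `n^3 √(Q_b Q_k) ≤ n^5`.
-/

set_option autoImplicit false

namespace Pool.Helper17.R5

open Pool.Agent.Helper97.RK (cur)

/-- integral vectors `(t₂, t₁, t₀)` -/
abbrev V3 : Type := ℤ × ℤ × ℤ

/-- integral ternary quadratic forms `(a, b, h, k, d, e)`:
`a t₂² + b t₂ t₁ + h t₁² + k t₂ t₀ + d t₁ t₀ + e t₀²` -/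
abbrev TF : Type := ℤ × ℤ × ℤ × ℤ × ℤ × ℤ

def tfa (N : TF) : ℤ := N.1
def tfb (N : TF) : ℤ := N.2.1
def tfh (N : TF) : ℤ := N.2.2.1
def tfk (N : TF) : ℤ := N.2.2.2.1
def tfd (N : TF) : ℤ := N.2.2.2.2.1
def tfe (N : TF) : ℤ := N.2.2.2.2.2

/-- value of the form -/
def ev (N : TF) (t : V3) : ℤ :=
  tfa N * t.1 ^ 2 + tfb N * t.1 * t.2.1 + tfh N * t.2.1 ^ 2 + tfk N * t.1 * t.2.2 +
    tfd N * t.2.1 * t.2.2 + tfe N * t.2.2 ^ 2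

/-- twice the bilinear form -/
def pol (N : TF) (t s : V3) : ℤ :=
  2 * tfa N * t.1 * s.1 + tfb N * (t.1 * s.2.1 + t.2.1 * s.1) + 2 * tfh N * t.2.1 * s.2.1 +
    tfk N * (t.1 * s.2.2 + t.2.2 * s.1) + tfd N * (t.2.1 * s.2.2 + t.2.2 * s.2.1) +
    2 * tfe N * t.2.2 * s.2.2

/-- `- 4` times the determinant -/
def disc (N : TF) : ℤ :=
  tfa N * tfd N ^ 2 + tfb N ^ 2 * tfe N + tfh N * tfk N ^ 2 - tfb N * tfd N * tfk N -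
    4 * tfa N * tfh N * tfe N

/-- scalar product: linear forms -/
def lin (u t : V3) : ℤ := u.1 * t.1 + u.2.1 * t.2.1 + u.2.2 * t.2.2

def det3 (u v w : V3) : ℤ :=
  u.1 * (v.2.1 * w.2.2 - v.2.2 * w.2.1) - u.2.1 * (v.1 * w.2.2 - v.2.2 * w.1) +
    u.2.2 * (v.1 * w.2.1 - v.2.1 * w.1)

/-- the nodes `∞, -1, 0, 1, 2` of the conic -/
def vv : Fin 5 → V3 := ![(1, 0, 0), (1, -1, 1), (0, 0, 1), (1, 1, 1), (4, 2, 1)]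

/-- the sixth point (`x = 1/2`) -/
def v6 : V3 := (1, 2, 4)

/-- the representation `N = β² - α γ` -/
def Rep (N : TF) (α β γ : V3) : Prop := ∀ t : V3, ev N t = lin β t ^ 2 - lin α t * lin γ t

/-- ISO: an isotropic vector.
`4 a N(t) = (2 a t₂ + b t₁ + k t₀)² - Q(t₁, t₀)`,
`Q = (b² - 4 a h) t₁² + 2 (b k - 2 a d) t₁ t₀ + (k² - 4 a e) t₀²`,
`(b k - 2 a d)² - (b² - 4 a h) (k² - 4 a e) = 4 a disc N = (2 y Y)²`.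
If `q := b² - 4 a h = 0` take `t = (-b, 2 a, 0)`; else `t₁ := -(b k - 2 a d) + 2 y Y`, `t₀ := q`,
`t := (-(b t₁ + k t₀), 2 a t₁, 2 a t₀)`. -/
def ST_ISO : Prop := ∀ (N : TF) (y Y : ℤ), tfa N = y ^ 2 → y ≠ 0 → disc N = Y ^ 2 →
  ∃ t : V3, t ≠ 0 ∧ ev N t = 0

/-- EMB: a nondegenerate isotropic integral form with square discriminant is `β² - α γ`.
Make the isotropic vector `t` primitive, complete it to a unimodular matrix `U` (first column `t`;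
`t = (g x, g y, t₀)`, `u x + v y = 1`, `s g + r t₀ = 1`: columns `t`, `(-v, u, 0)`,
`(-r x, -r y, s)`), then a unimodular change of the last two coordinates: in the new coordinates
`N = k t₁ t₂ + a t₂² + b t₂ t₃ + c t₃²`, `disc = k² c = Y²`, so `c = c₁²` and
`N = (c₁ t₃)² - (- t₂) (k t₁ + a t₂ + b t₃)`; go back with the inverse matrix. -/
def ST_EMB : Prop := ∀ (N : TF) (Y : ℤ), (∃ t : V3, t ≠ 0 ∧ ev N t = 0) → disc N = Y ^ 2 → Y ≠ 0 →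
  ∃ α β γ : V3, Rep N α β γ

/-- FACT: a binary form `α z² + 2 β z w + γ w²` with `β² - α γ = y² ≠ 0` is `c L L'` with
primitive integral linear forms.  (`α = 0`: clear.  `α ≠ 0`: `α F = (α z + (β - y) w)(α z +
(β + y) w)`, take the primitive parts; a product of two primitive linear forms is primitive.) -/
def ST_FACT : Prop := ∀ α β γ y : ℤ, β ^ 2 - α * γ = y ^ 2 → y ≠ 0 →
  ∃ c l l' m m' : ℤ, c ≠ 0 ∧ IsCoprime l l' ∧ IsCoprime m m' ∧ c * (l * m) = α ∧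
    c * (l * m' + l' * m) = 2 * β ∧ c * (l' * m') = γ

/-- NORM: coordinates with `z_a = (1, 0)` and `z_b = (κ, D)`, `0 ≤ κ < D`.
First column `(-la', la)` (or its negative), second column any completion, changed by multiples of the
first. -/
def ST_NORM : Prop := ∀ la la' lb lb' : ℤ, IsCoprime la la' → IsCoprime lb lb' →
  la * lb' - la' * lb ≠ 0 →
  ∃ g11 g12 g21 g22 s D κ : ℤ, g11 * g22 - g12 * g21 = 1 ∧ la * g11 + la' * g21 = 0 ∧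
    (s = 1 ∨ s = -1) ∧ s * (lb * g11 + lb' * g21) = D ∧ s * (lb * g12 + lb' * g22) = -κ ∧
    0 ≤ κ ∧ κ < D

/-- the value of the binary form `(α, β, γ)` at `(z, w)` -/
def bq (α β γ z w : ℤ) : ℤ := α * z ^ 2 + 2 * β * z * w + γ * w ^ 2

/-- BRA: if `F_t = (l z + l' w)(m z + m' w)` then the product of the values of `F_s` at the two roots
of `F_t` is `pol N t s ^ 2 - 4 ev N t ev N s` (identity
`bq(z) bq(z') = bq(z, z')² + (a c - b²) det(z, z')²`).  By `Rep` at `t + s` etc. `pol N t s =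
2 lin β t lin β s - lin α t lin γ s - lin γ t lin α s`. -/
def ST_BRA : Prop := ∀ (N : TF) (α β γ : V3), Rep N α β γ → ∀ (t s : V3) (l l' m m' : ℤ),
  l * m = lin α t → l * m' + l' * m = 2 * lin β t → l' * m' = lin γ t →
  bq (lin α s) (lin β s) (lin γ s) (-l') l * bq (lin α s) (lin β s) (lin γ s) (-m') m =
    pol N t s ^ 2 - 4 * ev N t * ev N s

/-- SUB: unimodular substitutions. -/
def ST_SUB : Prop := ∀ (N : TF) (α β γ : V3), Rep N α β γ → ∀ g11 g12 g21 g22 : ℤ,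
  g11 * g22 - g12 * g21 = 1 → ∃ α' β' γ' : V3, Rep N α' β' γ' ∧
    ∀ t : V3, lin α' t = bq (lin α t) (lin β t) (lin γ t) g11 g21 ∧
      lin β' t = lin α t * (g11 * g12) + lin β t * (g11 * g22 + g12 * g21) +
        lin γ t * (g21 * g22) ∧
      lin γ' t = bq (lin α t) (lin β t) (lin γ t) g12 g22 ∧
      ∀ z w : ℤ, bq (lin α' t) (lin β' t) (lin γ' t) z w =
        bq (lin α t) (lin β t) (lin γ t) (g11 * z + g12 * w) (g21 * z + g22 * w)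

/-- INEQ: the inequalities in normalised coordinates.  Here `(a6, b6, c6)` is `F_(v6)`,
`V = a6 c6 - b6² = - N(v6)`; `z_a = (1, 0)`, `z_b = (κ, D)`; `L_b = (D, -κ)`, `m_b = (rb, rb')`;
`L_u = (p, p')`, `m_u = (r, r')`; `Qa = |a6|`, `Qb = |bq a6 b6 c6 κ D|`,
`Qu = |bq a6 b6 c6 (-p') p|`, `Q(m_u) = |bq a6 b6 c6 (-r') r|`.
All follow from `bq(z) bq(z') = bq(z, z')² + V det(z, z')²` (`bq(z, z')` the polar form), e.g.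
`V q_u² ≤ Qu Qb`.  Hypotheses: `Qu Q(m_u) ≤ K n⁴` (row BRA), `α(v_b) = D rb`,
`Qa ≤ K |D rb|` (angle), `n² ≤ V`. -/
def ST_INEQ : Prop := ∀ K : ℤ, 1 ≤ K → ∃ K' : ℤ, 1 ≤ K' ∧ ∀ (n : ℕ) (a6 b6 c6 D κ rb rb' : ℤ),
  1 ≤ n → (n : ℤ) ^ 2 ≤ a6 * c6 - b6 ^ 2 → 0 < D →
  |bq a6 b6 c6 κ D| * |bq a6 b6 c6 (-rb') rb| ≤ K * (n : ℤ) ^ 4 →
  |a6| ≤ K * |D * rb| →
  |a6| * |bq a6 b6 c6 κ D| ≤ K' * D ^ 2 * (n : ℤ) ^ 2 ∧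
  D ^ 2 * (n : ℤ) ^ 2 ≤ |a6| * |bq a6 b6 c6 κ D| ∧
  ∀ p p' r r' : ℤ,
    |bq a6 b6 c6 (-p') p| * |bq a6 b6 c6 (-r') r| ≤ K * (n : ℤ) ^ 4 →
    |p * r| ≤ K' * |a6| ∧
    (p * κ + p' * D) ^ 2 * |a6| ≤ K' * |bq a6 b6 c6 (-p') p| * D ^ 2 ∧
    (r * κ + r' * D) ^ 2 * |a6| * |bq a6 b6 c6 (-p') p| ≤ K' * (n : ℤ) ^ 4 * D ^ 2

/-- the witness for a form `N` -/
def Wit (K : ℤ) (n : ℕ) (va vb vi vj vk : V3) (N : TF) (Qa Qb Qi Qj Qk : ℤ) : Prop :=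
  ∃ α β γ : V3, ∃ D κ rb rb' pi pi' ri ri' pj pj' rj rj' pk pk' rk rk' : ℤ,
    Rep N α β γ ∧ lin α va = 0 ∧
    (lin α vb = D * rb ∧ 2 * lin β vb = D * rb' - κ * rb ∧ lin γ vb = -κ * rb') ∧
    (lin α vi = pi * ri ∧ 2 * lin β vi = pi * ri' + pi' * ri ∧ lin γ vi = pi' * ri') ∧
    (lin α vj = pj * rj ∧ 2 * lin β vj = pj * rj' + pj' * rj ∧ lin γ vj = pj' * rj') ∧
    (lin α vk = pk * rk ∧ 2 * lin β vk = pk * rk' + pk' * rk ∧ lin γ vk = pk' * rk') ∧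
    (0 ≤ κ ∧ κ < D) ∧
    (lin α vb ≠ 0 ∧ lin α vi ≠ 0 ∧ lin α vj ≠ 0 ∧ lin α vk ≠ 0 ∧ pk * κ + pk' * D ≠ 0) ∧
    (|lin α vi| ≤ K * Qa ∧ |lin α vj| ≤ K * Qa) ∧
    D ^ 2 * (n : ℤ) ^ 2 ≤ K * Qa * Qb ∧
    ((pi * κ + pi' * D) ^ 2 * Qa ≤ K * Qi * D ^ 2 ∧
      (pj * κ + pj' * D) ^ 2 * Qa ≤ K * Qj * D ^ 2 ∧
      (pk * κ + pk' * D) ^ 2 * Qa ≤ K * Qk * D ^ 2) ∧
    ((ri * κ + ri' * D) ^ 2 * Qa * Qi ≤ K * (n : ℤ) ^ 4 * D ^ 2 ∧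
      (rj * κ + rj' * D) ^ 2 * Qa * Qj ≤ K * (n : ℤ) ^ 4 * D ^ 2) ∧
    (1 ≤ Qa ∧ Qa ≤ Qb ∧ Qa ≤ Qi ∧ Qa ≤ Qj ∧ Qa ≤ Qk) ∧
    (Qb ≤ K * (n : ℤ) ^ 2 ∧ Qi ≤ K * (n : ℤ) ^ 2 ∧ Qj ≤ K * (n : ℤ) ^ 2 ∧
      Qk ≤ K * (n : ℤ) ^ 2)

/-- the forms counted by EXTRA -/
def SN (C : ℤ) (n : ℕ) : Set TF :=
  {N | (|tfa N| ≤ C * (n : ℤ) ^ 2 ∧ |tfb N| ≤ C * (n : ℤ) ^ 2 ∧ |tfh N| ≤ C * (n : ℤ) ^ 2 ∧
      |tfk N| ≤ C * (n : ℤ) ^ 2 ∧ |tfd N| ≤ C * (n : ℤ) ^ 2 ∧ |tfe N| ≤ C * (n : ℤ) ^ 2) ∧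
    (∀ i : Fin 5, ∃ y : ℤ, y ≠ 0 ∧ ev N (vv i) = y ^ 2) ∧
    ev N v6 ≤ -(n : ℤ) ^ 2 ∧ (∃ Y : ℤ, Y ≠ 0 ∧ disc N = Y ^ 2) ∧
    ∀ i j : Fin 5, i ≠ j → pol N (vv i) (vv j) ^ 2 ≠ 4 * ev N (vv i) * ev N (vv j)}

/-- WIT: every form of `SN C n` has a witness, for some ordering of the nodes.
Rows ISO, EMB: `Rep N α β γ`.  Row FACT at each node: `F_i = c L L'`; take `L_i` the factor with the
smaller `|bq a6 b6 c6 (-l') l|` (`(a6, b6, c6) = F_(v6)`), `m_i = c ·` the other one, so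
`Q_i ≤ Q(m_i)`.  BRA: `Q_i Q(m_i) = pol N (vv i) v6 ^ 2 + 4 y_i² V ≤ K n⁴`, so `Q_i ≤ K n²`.
`a` = node with the smallest `Q`.  ANGLE: for two other nodes `b, b'`, `v6` is a combination of
`vv a, vv b, vv b'`, and `F_(vv a)(z_a) = 0`, so `Q_a = |F_(v6)(z_a)| ≤ K max(|F_b(z_a)|,
|F_b'(z_a)|)`: take the better one.  In particular `det(z_a, z_b) ≠ 0`.  Row NORM: substitute
(`α, β, γ` change accordingly, all `Q` are invariant).  Row INEQ.  NONZERO: if `F_u` and `F_w`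
(`u ≠ w` nodes) have a common zero then `pol N u w ^ 2 = 4 ev N u * ev N w`, excluded. -/
def ST_WIT : Prop := ∀ C : ℤ, ∃ K : ℤ, ∀ (n : ℕ), 1 ≤ n → ∀ N ∈ SN C n,
  ∃ (s : Equiv.Perm (Fin 5)) (Qa Qb Qi Qj Qk : ℤ),
    Wit K n (vv (s 0)) (vv (s 1)) (vv (s 2)) (vv (s 3)) (vv (s 4)) N Qa Qb Qi Qj Qk

/-- FIB: the form is determined by the tuple
`(α(v_i), α(v_j), D, pi, pj, pk, κ, pi', pj', pk', ri', rj')`.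
`α(va) = 0` gives `α(v_k)` (`det3 vi vj va ≠ 0`), so `α`; `r_u = α(v_u) / p_u`;
`F_b(κ, D) = 0` is `Σ ± det3(..) q_u s_u = 0` over `u = i, j, k` with `q_u = p_u κ + p_u' D`,
`s_u = r_u κ + r_u' D` (`v_b` is a combination of `v_i, v_j, v_k` with nonzero coefficients), and
`q_k ≠ 0`, so `s_k` and `rk'` are determined; so `β, γ` at `v_i, v_j, v_k`. -/
def ST_FIB : Prop := ∀ va vb vi vj vk : V3, det3 vi vj vk ≠ 0 → det3 vi vj va ≠ 0 →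
  det3 vi vj vb ≠ 0 →
  ∀ (N N' : TF) (α β γ α' β' γ' : V3)
    (D κ rb rb' pi pi' ri ri' pj pj' rj rj' pk pk' rk rk' : ℤ)
    (qb qb' qi qj qk qk' : ℤ), D ≠ 0 → pi ≠ 0 → pj ≠ 0 → pk ≠ 0 → pk * κ + pk' * D ≠ 0 →
    Rep N α β γ → Rep N' α' β' γ' → lin α va = 0 → lin α' va = 0 →
    lin α vi = lin α' vi → lin α vj = lin α' vj →
    (lin α vb = D * rb ∧ 2 * lin β vb = D * rb' - κ * rb ∧ lin γ vb = -κ * rb') →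
    (lin α' vb = D * qb ∧ 2 * lin β' vb = D * qb' - κ * qb ∧ lin γ' vb = -κ * qb') →
    (lin α vi = pi * ri ∧ 2 * lin β vi = pi * ri' + pi' * ri ∧ lin γ vi = pi' * ri') →
    (lin α' vi = pi * qi ∧ 2 * lin β' vi = pi * ri' + pi' * qi ∧ lin γ' vi = pi' * ri') →
    (lin α vj = pj * rj ∧ 2 * lin β vj = pj * rj' + pj' * rj ∧ lin γ vj = pj' * rj') →
    (lin α' vj = pj * qj ∧ 2 * lin β' vj = pj * rj' + pj' * qj ∧ lin γ' vj = pj' * rj') →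
    (lin α vk = pk * rk ∧ 2 * lin β vk = pk * rk' + pk' * rk ∧ lin γ vk = pk' * rk') →
    (lin α' vk = pk * qk ∧ 2 * lin β' vk = pk * qk' + pk' * qk ∧ lin γ' vk = pk' * qk') →
    N = N'

/-- CNT: the number of forms with a witness.  Sum over `4^e ≤ Q < 4^(e+1)` for the five `Q`
(`O(log n)^5` classes).  In one class the number of tuples of FIB is at most:
`(3 K 4^(ea+1))^2` for `(α(v_i), α(v_j))`; `n^ε` for `D, pi, pj, pk` (divisors of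
`α(v_b), ..`, nonzero and `≤ K' n^2`); `D ≤ K 2^(ea+eb+2) / n` for `κ`;
`C 2^(eu-ea)` for `pu'` (`|pu κ + pu' D| ≤ D √(K Qu/Qa)`), `u = i, j, k`;
`C n^2 / 2^(ea+eu)` for `ru'`, `u = i, j` (note `2^(ea+eu) ≤ K n^2`).  The product is
`C n^(3+ε) 2^(eb+ek) ≤ C n^(5+ε)`. -/
def ST_CNT : Prop := ∀ va vb vi vj vk : V3, det3 vi vj vk ≠ 0 → det3 vi vj va ≠ 0 →
  det3 vi vj vb ≠ 0 → ∀ ε : ℝ, 0 < ε → ∀ K : ℤ, ∃ D : ℝ, 0 < D ∧ ∀ n : ℕ, 1 ≤ n →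
  {N : TF | ∃ Qa Qb Qi Qj Qk : ℤ, Wit K n va vb vi vj vk N Qa Qb Qi Qj Qk}.Finite ∧
  ({N : TF | ∃ Qa Qb Qi Qj Qk : ℤ, Wit K n va vb vi vj vk N Qa Qb Qi Qj Qk}.ncard : ℝ) ≤
    D * (n : ℝ) ^ (5 + ε)

/-- CNT1: one class, with a bound `τ` for the number of divisors. -/
def ST_CNT1 : Prop := ∀ va vb vi vj vk : V3, det3 vi vj vk ≠ 0 → det3 vi vj va ≠ 0 →
  det3 vi vj vb ≠ 0 → ∀ K : ℤ, ∃ C : ℕ, ∀ n : ℕ, 1 ≤ n → ∀ τ : ℕ,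
  (∀ m : ℕ, 1 ≤ m → m ≤ C * n ^ 2 → m.divisors.card ≤ τ) → ∀ ea eb ei ej ek : ℕ,
  {N : TF | ∃ Qa Qb Qi Qj Qk : ℤ, ((4 : ℤ) ^ ea ≤ Qa ∧ Qa < 4 ^ (ea + 1)) ∧
    ((4 : ℤ) ^ eb ≤ Qb ∧ Qb < 4 ^ (eb + 1)) ∧ ((4 : ℤ) ^ ei ≤ Qi ∧ Qi < 4 ^ (ei + 1)) ∧
    ((4 : ℤ) ^ ej ≤ Qj ∧ Qj < 4 ^ (ej + 1)) ∧ ((4 : ℤ) ^ ek ≤ Qk ∧ Qk < 4 ^ (ek + 1)) ∧
    Wit K n va vb vi vj vk N Qa Qb Qi Qj Qk}.Finite ∧
  {N : TF | ∃ Qa Qb Qi Qj Qk : ℤ, ((4 : ℤ) ^ ea ≤ Qa ∧ Qa < 4 ^ (ea + 1)) ∧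
    ((4 : ℤ) ^ eb ≤ Qb ∧ Qb < 4 ^ (eb + 1)) ∧ ((4 : ℤ) ^ ei ≤ Qi ∧ Qi < 4 ^ (ei + 1)) ∧
    ((4 : ℤ) ^ ej ≤ Qj ∧ Qj < 4 ^ (ej + 1)) ∧ ((4 : ℤ) ^ ek ≤ Qk ∧ Qk < 4 ^ (ek + 1)) ∧
    Wit K n va vb vi vj vk N Qa Qb Qi Qj Qk}.ncard ≤ C * τ ^ 4 * n ^ 5

/-- EXTRA (from WIT, CNT; sum over the 120 orderings). -/
def ST_EXTRA : Prop := ∀ ε : ℝ, 0 < ε → ∀ C : ℤ, ∃ D : ℝ, 0 < D ∧ ∀ n : ℕ, 1 ≤ n →
  (SN C n).Finite ∧ ((SN C n).ncard : ℝ) ≤ D * (n : ℝ) ^ (5 + ε)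

/-! ## The family of curves -/

/-- the modulus -/
def MM : ℤ := (Nat.factorial 1000 : ℤ)

/-- the base residues -/
def yb : Fin 5 → ℤ := ![8, 4, 3, 2, 5]

def Good (y : Fin 5 → ℤ) : Prop := ∀ i, MM ∣ y i - yb i

def cc (y : Fin 5 → ℤ) : ℤ := (y 3 ^ 2 + y 1 ^ 2 - 2 * y 0 ^ 2 - 2 * y 2 ^ 2) / 6
def bb (y : Fin 5 → ℤ) : ℤ := (y 4 ^ 2 - 12 * y 0 ^ 2 - 3 * y 3 ^ 2 - y 1 ^ 2 + 3 * y 2 ^ 2) / 6
def dd (y : Fin 5 → ℤ) : ℤ :=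
  (6 * y 3 ^ 2 - 2 * y 1 ^ 2 - y 4 ^ 2 + 12 * y 0 ^ 2 - 3 * y 2 ^ 2) / 6

/-- the coefficients of the curve `E_y` -/
def aA (y : Fin 5 → ℤ) : ℤ := -(4 * y 0 ^ 2 * y 2 ^ 2 - bb y * dd y + 3 * cc y ^ 2)
def aB (y : Fin 5 → ℤ) : ℤ :=
  y 0 ^ 2 * dd y ^ 2 + y 2 ^ 2 * bb y ^ 2 - bb y * dd y * cc y -
    8 * y 0 ^ 2 * cc y * y 2 ^ 2 + 2 * cc y ^ 3

/-- the ternary form belonging to the abscissa `x` -/
def nf (y : Fin 5 → ℤ) (x : ℤ) : TF :=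
  (y 0 ^ 2, bb y, 2 * cc y + x, cc y - x, dd y, y 2 ^ 2)

/-- the abscissae of the known integral points: `xP y i s` belongs to the nodes `∞, ξ`, with
`ξ = -1, 0, 1, 2` for `i = 1, 2, 3, 4`; `xQ y s` to the nodes `0, 1` -/
def xi : Fin 5 → ℤ := ![0, -1, 0, 1, 2]
def xP (y : Fin 5 → ℤ) (i : Fin 5) (s : ℤ) : ℤ :=
  2 * y 0 ^ 2 * xi i ^ 2 + bb y * xi i + cc y - 2 * s * y 0 * y i
def xQ (y : Fin 5 → ℤ) (s : ℤ) : ℤ := cc y + dd y + 2 * y 2 ^ 2 - 2 * s * y 2 * y 3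
/-- the ordinates -/
def yP (y : Fin 5 → ℤ) (i : Fin 5) (s : ℤ) : ℤ :=
  y 0 * (bb y * xi i ^ 2 + 2 * (xP y i s + 2 * cc y) * xi i + dd y) - s * y i * bb y
def yQ (y : Fin 5 → ℤ) (s : ℤ) : ℤ :=
  y 2 * (bb y + 2 * (xQ y s + 2 * cc y) + dd y) - s * y 3 * dd y

/-- REL: divisibility by 6 and the values of `nf y x`. -/
def ST_REL : Prop := ∀ y : Fin 5 → ℤ, Good y →
  6 * cc y = y 3 ^ 2 + y 1 ^ 2 - 2 * y 0 ^ 2 - 2 * y 2 ^ 2 ∧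
  6 * bb y = y 4 ^ 2 - 12 * y 0 ^ 2 - 3 * y 3 ^ 2 - y 1 ^ 2 + 3 * y 2 ^ 2 ∧
  6 * dd y = 6 * y 3 ^ 2 - 2 * y 1 ^ 2 - y 4 ^ 2 + 12 * y 0 ^ 2 - 3 * y 2 ^ 2 ∧
  ∀ x : ℤ, (∀ i, ev (nf y x) (vv i) = y i ^ 2) ∧
    ev (nf y x) v6 = 9 * (y 0 ^ 2 + y 2 ^ 2 + y 3 ^ 2) - (y 1 ^ 2 + y 4 ^ 2) ∧
    disc (nf y x) = x ^ 3 + aA y * x + aB y

/-- PTS: the known points lie on the curve. -/
def ST_PTS : Prop := ∀ y : Fin 5 → ℤ, Good y → ∀ s : ℤ, (s = 1 ∨ s = -1) →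
  (∀ i : Fin 5, i ≠ 0 → yP y i s ^ 2 = xP y i s ^ 3 + aA y * xP y i s + aB y) ∧
  yQ y s ^ 2 = xQ y s ^ 3 + aA y * xQ y s + aB y

/-- CERT: consequences of the congruences.  Modulo every prime `q ≤ 1000`, `aA y ≡ -18259`,
`aB y ≡ 800494` (coprime numbers), `4 A³ + 27 B² ≢ 0`.  Rank: ST_RANK of
`Pool.Agent.Helper97.RK.Stmts` (proved in Helper16) with the five points
`xP y 1 1, xP y 2 1, xP y 3 1, xP y 4 1, xP y 4 (-1)`; the cubic has no root modulo `5`; the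
characters at the simple roots `5 mod 7`, `5 mod 11`, `7 mod 11`, `1 mod 13`, `2 mod 13` have the signs
`(+,-,+,+,-)`, `(-,+,+,+,-)`, `(-,+,-,-,-)`, `(+,-,-,-,+)`, `(+,-,+,-,+)`
(nonsingular modulo 2). -/
def ST_CERT : Prop := ∀ y : Fin 5 → ℤ, Good y →
  4 * aA y ^ 3 + 27 * aB y ^ 2 ≠ 0 ∧
  (∀ q : ℕ, q.Prime → q ≤ 1000 → ¬ ((q : ℤ) ∣ aA y ∧ (q : ℤ) ∣ aB y)) ∧
  (5 : Cardinal) ≤ Module.rank ℤ ((cur (aA y) (aB y)).toAffine).Point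

/-- the members of the family of size `N` -/
def sh : Fin 5 → ℤ := ![1, 10, 1, 1, 10]
def yy (N : ℕ) (t : Fin 5 → ℕ) : Fin 5 → ℤ := fun i => yb i + MM * (sh i * (N : ℤ) + (t i : ℤ))
def Box (N : ℕ) : Finset (Fin 5 → ℕ) := Fintype.piFinset fun _ => Finset.range N

/-- SV1: for a prime `q ∤ 6`, given `y 0, y 2, y 3` modulo `q`, there are at most 12 classes for
`y 1` and, given `y 1`, at most 4 for `y 4`, with `q ∣ aA`, `q ∣ aB`.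
With `a = y_0²`, `e = y_2²`, `σ = y_3² - a - e`, `s = σ - 3 c (= b + d)`, `p = 4 a e + 3 c²`
(`≡ b d`), `W = c³ + 12 a e c - a s² + (a + e) p (≡ (e - a) s b)`:
`W² - (e - a) s² W + (e - a)² s² p ≡ 0`, a monic polynomial of degree 6 in `c`; and
`b² - s b + p ≡ 0`. -/
def ST_SV1 : Prop := ∀ q : ℕ, q.Prime → 1000 < q → ∀ u0 u2 u3 : ZMod q,
  ∃ S : Finset (ZMod q), S.card ≤ 12 ∧ ∃ R : ZMod q → Finset (ZMod q), (∀ u, (R u).card ≤ 4) ∧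
    ∀ y : Fin 5 → ℤ, Good y → ((y 0 : ℤ) : ZMod q) = u0 → ((y 2 : ℤ) : ZMod q) = u2 →
      ((y 3 : ℤ) : ZMod q) = u3 → (q : ℤ) ∣ aA y → (q : ℤ) ∣ aB y →
      ((y 1 : ℤ) : ZMod q) ∈ S ∧ ((y 4 : ℤ) : ZMod q) ∈ R ((y 1 : ℤ) : ZMod q)

open Classical in
/-- SV2 (from SV1): one prime. -/
def ST_SV2 : Prop := ∀ (N q : ℕ), q.Prime → 1000 < q →
  ((Box N).filter (fun t => (q : ℤ) ∣ aA (yy N t) ∧ (q : ℤ) ∣ aB (yy N t))).card ≤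
    48 * (N / q + 1) ^ 2 * N ^ 3

open Classical in
/-- SIEVE (from SV2): for a prime `q > 1000` (so `q ∤ MM`... use `MM` coprime to `q`) at most
`N³ · 12 (N/q + 1) · 4 (N/q + 1)` members have `q ∣ aA`, `q ∣ aB`; for `q ≤ N` this is
`≤ 192 N⁵ / q²`, sum `≤ 0.2 N⁵`; for `q > N` it is `≤ 48 N³ · 4`, sum `≤ 192 C N⁴`. -/
def ST_SIEVE : Prop := ∀ C : ℕ, ∃ N0 : ℕ, ∀ N : ℕ, N0 ≤ N →
  2 * ((Box N).filter (fun t => ∃ q : ℕ, q.Prime ∧ 1000 < q ∧ q ≤ C * N ∧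
    (q : ℤ) ∣ aA (yy N t) ∧ (q : ℤ) ∣ aB (yy N t))).card ≤ N ^ 5

/-- MULT: the parameters are determined by ten abscissae
(`xP y i (-1) - xP y i 1 = 4 y_0 y_i`, `xQ y (-1) - xQ y 1 = 4 y_2 y_3`). -/
def ST_MULT : Prop := ∀ y y' : Fin 5 → ℤ, (∀ i, 0 < y i) → (∀ i, 0 < y' i) →
  (∀ i : Fin 5, i ≠ 0 → xP y i 1 = xP y' i 1 ∧ xP y i (-1) = xP y' i (-1)) →
  xQ y 1 = xQ y' 1 → xQ y (-1) = xQ y' (-1) → y = y'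

/-- BND: bounds for the family. -/
def ST_BND : Prop := ∃ C : ℤ, 1 ≤ C ∧ ∀ N : ℕ, 1 ≤ N → ∀ t ∈ Box N,
  Good (yy N t) ∧ (∀ i, 0 < yy N t i ∧ yy N t i ≤ C * (N : ℤ)) ∧
  |bb (yy N t)| ≤ C * (N : ℤ) ^ 2 ∧ |cc (yy N t)| ≤ C * (N : ℤ) ^ 2 ∧
  |dd (yy N t)| ≤ C * (N : ℤ) ^ 2 ∧
  9 * (yy N t 0 ^ 2 + yy N t 2 ^ 2 + yy N t 3 ^ 2) - (yy N t 1 ^ 2 + yy N t 4 ^ 2) ≤
    -(N : ℤ) ^ 2 ∧
  (∀ i s, (s = 1 ∨ s = -1) → |xP (yy N t) i s| ≤ C * (N : ℤ) ^ 2) ∧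
  (∀ s, (s = 1 ∨ s = -1) → |xQ (yy N t) s| ≤ C * (N : ℤ) ^ 2) ∧
  |aA (yy N t)| ≤ C * (N : ℤ) ^ 4 ∧ |aB (yy N t)| ≤ C * (N : ℤ) ^ 6

/-- the number of abscissae of integral points -/
noncomputable def Ix (C : ℤ) (N : ℕ) (A B : ℤ) : ℕ :=
  {x : ℤ | |x| ≤ C * (N : ℤ) ^ 2 ∧ ∃ Y : ℤ, Y ^ 2 = x ^ 3 + A * x + B}.ncard

/-- LINK (from EXTRA, REL, BND): the average of `Ix` is at most `N^ε`.  For each `t` all but at most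
`3 + 20` abscissae (zeros of the cubic; `pol (vv i) (vv j) ^ 2 = 4 y_i² y_j²`, where `pol` is
linear in `x` with nonzero coefficient) give `nf (yy N t) x ∈ SN C' N`, and `(t, x)` is determined
by the form. -/
def ST_LINK : Prop := ∀ ε : ℝ, 0 < ε → ∀ C : ℤ, ∃ D : ℝ, 0 < D ∧ ∀ N : ℕ, 1 ≤ N →
  ∑ t ∈ Box N, (Ix C N (aA (yy N t)) (aB (yy N t)) : ℝ) ≤ D * (N : ℝ) ^ (5 + ε)

/-- the pairs found -/
def RS (C : ℤ) (N : ℕ) : Set (ℤ × ℤ) :=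
  {p | 4 * p.1 ^ 3 + 27 * p.2 ^ 2 ≠ 0 ∧
    (∀ q : ℕ, q.Prime → ¬ ((q : ℤ) ^ 4 ∣ p.1 ∧ (q : ℤ) ^ 6 ∣ p.2)) ∧
    |p.1| ≤ C * (N : ℤ) ^ 4 ∧ |p.2| ≤ C * (N : ℤ) ^ 6 ∧
    (5 : Cardinal) ≤ Module.rank ℤ ((cur p.1 p.2).toAffine).Point}

/-- FIN1 (from CERT, SIEVE, MULT, PTS, BND, LINK).  With `ε' = ε / 10`: at least half of
`Box N` are reduced (a prime with `q⁴ ∣ A`, `q⁶ ∣ B` is `≤ C N` since `(A, B) ≠ (0, 0)`, and `> 1000`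
by CERT); for all but `N⁵/4` of the `t`, `Ix ≤ 4 D N^ε'` (LINK); for those, each pair `(A, B)` is
taken at most `(4 D N^ε')^10` times (MULT: the ten abscissae are among the `Ix` ones). -/
def ST_FIN1 : Prop := ∃ C : ℤ, 1 ≤ C ∧ ∀ ε : ℝ, 0 < ε → ∃ c : ℝ, 0 < c ∧ ∃ N0 : ℕ, ∀ N : ℕ,
  N0 ≤ N → c * (N : ℝ) ^ (5 - ε) ≤ ((RS C N).ncard : ℝ)

/-- FIN (from FIN1): the theorem (same set as in the frozen statement).  With `ε' = ε / 100`: at least half of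
`Box N` are reduced (SIEVE, CERT: a prime with `q⁴ ∣ A`, `q⁶ ∣ B` is `≤ C N`); for all but `N⁵/4`
of the `t`, `Ix ≤ 4 D N^ε'`; for those, each pair `(A, B)` is taken at most `(4 D N^ε')^10`
times (MULT, PTS, BND).  So `≥ c N^(5 - 10 ε')` pairs of height `≤ C N^12`. -/
def ST_FIN : Prop := ∀ ε : ℝ, 0 < ε → ∃ H₀ : ℝ, ∀ H : ℝ, H₀ ≤ H →
  H ^ ((5 : ℝ) / 12 - ε) ≤
    ((Set.ncard {p : ℤ × ℤ |
      4 * p.1 ^ 3 + 27 * p.2 ^ 2 ≠ 0 ∧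
      (∀ q : ℕ, q.Prime → ¬ ((q : ℤ) ^ 4 ∣ p.1 ∧ (q : ℤ) ^ 6 ∣ p.2)) ∧
      (((max (4 * |p.1| ^ 3) (27 * p.2 ^ 2) : ℤ) : ℝ) ≤ H) ∧
      (5 : Cardinal) ≤ Module.rank ℤ
        (WeierstrassCurve.toAffine
          (⟨0, 0, 0, (p.1 : ℚ), (p.2 : ℚ)⟩ : WeierstrassCurve ℚ)).Point} : ℕ) : ℝ)

end Pool.Helper17.R5
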