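import Pool.Agent.Helper17.R5.Sheet

set_option autoImplicit false

namespace Pool.Helper17.R5

lemma wit_bq_lin (α β γ : V3) (z w : ℤ) (t : V3) :
    bq (lin α t) (lin β t) (lin γ t) z w =
      lin (α.1 * z ^ 2 + 2 * β.1 * z * w + γ.1 * w ^ 2,
        α.2.1 * z ^ 2 + 2 * β.2.1 * z * w + γ.2.1 * w ^ 2,
        α.2.2 * z ^ 2 + 2 * β.2.2 * z * w + γ.2.2 * w ^ 2) t := by
  simp only [bq, lin]
  ring

lemma wit_cramer (ω a b b' s : V3) :
    det3 a b b' * lin ω s = det3 b b' s * lin ω a - det3 a b' s * lin ω b + det3 a b s * lin ω b' := by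
  simp only [det3, lin]
  ring

lemma wit_perm (a b : Fin 5) (h : a ≠ b) : ∃ s : Equiv.Perm (Fin 5), s 0 = a ∧ s 1 = b := by
  refine ⟨Equiv.swap 1 (Equiv.swap 0 a b) |>.trans (Equiv.swap 0 a), ?_, ?_⟩
  · have h1 : (Equiv.swap 0 a b) ≠ 0 := by
      intro h2
      apply h
      have h3 : Equiv.swap 0 a (Equiv.swap 0 a b) = Equiv.swap 0 a 0 := by rw [h2]
      rw [Equiv.swap_apply_self, Equiv.swap_apply_left] at h3
      exact h3.symm
    have h4 : Equiv.swap 1 (Equiv.swap 0 a b) (0 : Fin 5) = 0 :=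
      Equiv.swap_apply_of_ne_of_ne (by decide) (Ne.symm h1)
    rw [Equiv.trans_apply, h4, Equiv.swap_apply_left]
  · rw [Equiv.trans_apply, Equiv.swap_apply_left, Equiv.swap_apply_self]

lemma wit_nodes : ∀ a : Fin 5, ∃ b b' : Fin 5, b ≠ a ∧ b' ≠ a ∧
    det3 (vv a) (vv b) (vv b') ≠ 0 ∧ |det3 (vv a) (vv b') v6| ≤ 100 ∧
    |det3 (vv a) (vv b) v6| ≤ 100 := by
  decide

/-- positivity of the definite form -/
lemma wit_pos (a b c z w : ℤ) (hV : 0 < a * c - b ^ 2) (hz : z ≠ 0 ∨ w ≠ 0) :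
    0 < |bq a b c z w| := by
  rw [abs_pos]
  intro h
  have h1 : a * bq a b c z w = (a * z + b * w) ^ 2 + (a * c - b ^ 2) * w ^ 2 := by
    simp only [bq]; ring
  have h2 : c * bq a b c z w = (b * z + c * w) ^ 2 + (a * c - b ^ 2) * z ^ 2 := by
    simp only [bq]; ring
  rw [h, mul_zero] at h1 h2
  rcases hz with hz | hz
  · have : 0 < z ^ 2 := by positivity
    nlinarith [sq_nonneg (b * z + c * w), mul_pos hV this]
  · have : 0 < w ^ 2 := by positivity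
    nlinarith [sq_nonneg (a * z + b * w), mul_pos hV this]

/-- bounds for the values -/
lemma wit_bound (C : ℤ) (n : ℕ) (N : TF)
    (h : |tfa N| ≤ C * (n : ℤ) ^ 2 ∧ |tfb N| ≤ C * (n : ℤ) ^ 2 ∧ |tfh N| ≤ C * (n : ℤ) ^ 2 ∧
      |tfk N| ≤ C * (n : ℤ) ^ 2 ∧ |tfd N| ≤ C * (n : ℤ) ^ 2 ∧ |tfe N| ≤ C * (n : ℤ) ^ 2) (i : Fin 5) :
    |pol N (vv i) v6| ≤ 200 * (C * (n : ℤ) ^ 2) ∧ |ev N (vv i)| ≤ 200 * (C * (n : ℤ) ^ 2) ∧
      |ev N v6| ≤ 200 * (C * (n : ℤ) ^ 2) := by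
  obtain ⟨h1, h2, h3, h4, h5, h6⟩ := h
  set T := C * (n : ℤ) ^ 2
  rw [abs_le] at h1 h2 h3 h4 h5 h6
  have hT : 0 ≤ T := by linarith
  refine ⟨?_, ?_, ?_⟩
  · rw [abs_le]
    fin_cases i <;> simp only [pol, vv, v6] <;>
      simp <;> constructor <;> linarith
  · rw [abs_le]
    fin_cases i <;> simp only [ev, vv] <;>
      simp <;> constructor <;> linarith
  · rw [abs_le]
    simp only [ev, v6]
    constructor <;> linarith

/-- the chosen factor -/
lemma wit_fact (hfact : ST_FACT) (N : TF) (α β γ : V3) (hrep : Rep N α β γ) (t s : V3) (y : ℤ)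
    (hy : y ≠ 0) (hev : ev N t = y ^ 2) :
    ∃ l l' m m' : ℤ, IsCoprime l l' ∧ l * m = lin α t ∧ l * m' + l' * m = 2 * lin β t ∧
      l' * m' = lin γ t ∧
      |bq (lin α s) (lin β s) (lin γ s) (-l') l| ≤
        |bq (lin α s) (lin β s) (lin γ s) (-m') m| := by
  have h0 : lin β t ^ 2 - lin α t * lin γ t = y ^ 2 := by rw [← hrep t, hev]
  obtain ⟨c, l, l', m, m', hc, hl, hm, h1, h2, h3⟩ := hfact _ _ _ y h0 hy
  have hc2 : (1 : ℤ) ≤ c ^ 2 := by
    have : 0 < c ^ 2 := by positivity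
    linarith
  have hsc : ∀ x x' : ℤ, |bq (lin α s) (lin β s) (lin γ s) (-x') x| ≤
      |bq (lin α s) (lin β s) (lin γ s) (-(c * x')) (c * x)| := by
    intro x x'
    have h4 : bq (lin α s) (lin β s) (lin γ s) (-(c * x')) (c * x) =
        c ^ 2 * bq (lin α s) (lin β s) (lin γ s) (-x') x := by
      simp only [bq]; ring
    rw [h4, abs_mul, abs_of_nonneg (by positivity : (0 : ℤ) ≤ c ^ 2)]
    have h5 := abs_nonneg (bq (lin α s) (lin β s) (lin γ s) (-x') x)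
    nlinarith
  rcases le_total |bq (lin α s) (lin β s) (lin γ s) (-l') l|
    |bq (lin α s) (lin β s) (lin γ s) (-m') m| with h | h
  · refine ⟨l, l', c * m, c * m', hl, ?_, ?_, ?_, le_trans h (hsc m m')⟩
    · rw [← h1]; ring
    · rw [← h2]; ring
    · rw [← h3]; ring
  · refine ⟨m, m', c * l, c * l', hm, ?_, ?_, ?_, le_trans h (hsc l l')⟩
    · rw [← h1]; ring
    · rw [← h2]; ring
    · rw [← h3]; ring

/-- a small square is small -/
lemma wit_sq (Q R K m : ℤ) (hQ : 0 ≤ Q) (hK : 1 ≤ K) (hm : 0 ≤ m) (hQR : Q ≤ R)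
    (h : Q * R ≤ K * m ^ 2) : Q ≤ K * m := by
  by_contra hlt
  push Not at hlt
  have h1 : 0 ≤ K * m := by positivity
  have h2 : (K * m) * (K * m) < Q * Q := by nlinarith
  have h3 : Q * Q ≤ Q * R := mul_le_mul_of_nonneg_left hQR hQ
  have h4 : K * m ^ 2 ≤ (K * m) * (K * m) := by
    have : 0 ≤ m ^ 2 := by positivity
    have h5 : (K * m) * (K * m) = K * (K * m ^ 2) := by ring
    rw [h5]
    have h6 : 0 ≤ K * m ^ 2 := by positivity
    nlinarith
  linarith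

/-- product bound from BRA -/
lemma wit_prod (C : ℤ) (n : ℕ) (P E F : ℤ) (hP : |P| ≤ 200 * (C * (n : ℤ) ^ 2))
    (hE : |E| ≤ 200 * (C * (n : ℤ) ^ 2)) (hF : |F| ≤ 200 * (C * (n : ℤ) ^ 2)) (X Y : ℤ)
    (h : X * Y = P ^ 2 - 4 * E * F) : |X| * |Y| ≤ (200000 * C ^ 2) * (n : ℤ) ^ 4 := by
  rw [← abs_mul, h]
  set T := 200 * (C * (n : ℤ) ^ 2) with hT
  have hT0 : 0 ≤ T := le_trans (abs_nonneg _) hP
  have h1 : P ^ 2 ≤ T ^ 2 := by
    rw [← sq_abs P]
    exact pow_le_pow_left₀ (abs_nonneg _) hP 2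
  have h2 : |E * F| ≤ T ^ 2 := by
    rw [abs_mul, sq]
    exact mul_le_mul hE hF (abs_nonneg _) hT0
  have h3 : (0 : ℤ) ≤ P ^ 2 := sq_nonneg P
  rw [abs_le] at h2
  have h4 : T ^ 2 * 5 = (200000 * C ^ 2) * (n : ℤ) ^ 4 := by rw [hT]; ring
  rw [abs_le]
  constructor <;> nlinarith

/-- the angle argument -/
lemma wit_angle (α β γ : V3) (a : Fin 5) (z w : ℤ)
    (h0 : bq (lin α (vv a)) (lin β (vv a)) (lin γ (vv a)) z w = 0) :
    ∃ b : Fin 5, b ≠ a ∧ |bq (lin α v6) (lin β v6) (lin γ v6) z w| ≤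
      200 * |bq (lin α (vv b)) (lin β (vv b)) (lin γ (vv b)) z w| := by
  obtain ⟨b, b', hb, hb', hd, hd1, hd2⟩ := wit_nodes a
  simp only [wit_bq_lin] at h0 ⊢
  set ω : V3 := (α.1 * z ^ 2 + 2 * β.1 * z * w + γ.1 * w ^ 2,
        α.2.1 * z ^ 2 + 2 * β.2.1 * z * w + γ.2.1 * w ^ 2,
        α.2.2 * z ^ 2 + 2 * β.2.2 * z * w + γ.2.2 * w ^ 2) with hω
  have h1 := wit_cramer ω (vv a) (vv b) (vv b') v6
  rw [h0, mul_zero, zero_sub] at h1
  have h2 : |lin ω v6| ≤ |det3 (vv a) (vv b) (vv b') * lin ω v6| := by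
    rw [abs_mul]
    have h3 : 1 ≤ |det3 (vv a) (vv b) (vv b')| := Int.one_le_abs hd
    have h4 := abs_nonneg (lin ω v6)
    nlinarith
  rw [h1] at h2
  have h5 : |-(det3 (vv a) (vv b') v6 * lin ω (vv b)) + det3 (vv a) (vv b) v6 * lin ω (vv b')| ≤
      100 * |lin ω (vv b)| + 100 * |lin ω (vv b')| := by
    refine le_trans (abs_add_le _ _) ?_
    rw [abs_neg, abs_mul, abs_mul]
    have h6 := mul_le_mul_of_nonneg_right hd1 (abs_nonneg (lin ω (vv b)))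
    have h7 := mul_le_mul_of_nonneg_right hd2 (abs_nonneg (lin ω (vv b')))
    linarith
  rcases le_total |lin ω (vv b)| |lin ω (vv b')| with h | h
  · exact ⟨b', hb', by linarith⟩
  · exact ⟨b, hb, by linarith⟩

theorem st_WIT (hiso : ST_ISO) (hemb : ST_EMB) (hfact : ST_FACT) (hnorm : ST_NORM)
    (hbra : ST_BRA) (hsub : ST_SUB) (hineq : ST_INEQ) : ST_WIT := by
  intro C
  set C1 : ℤ := |C| + 1 with hC1
  have hC1' : 1 ≤ C1 := by rw [hC1]; linarith [abs_nonneg C]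
  set K0 : ℤ := 200000 * C1 ^ 2 with hK0
  have hK0' : 200 ≤ K0 := by rw [hK0]; nlinarith
  obtain ⟨K', hK', hine⟩ := hineq K0 (by linarith)
  set K : ℤ := K0 + K' with hK
  refine ⟨K, ?_⟩
  intro n hn N hN
  obtain ⟨hco, hsqv, hv6, ⟨Y, hY0, hY⟩, hpol⟩ := hN
  have hn1 : (1 : ℤ) ≤ (n : ℤ) := by exact_mod_cast hn
  have hn2 : (1 : ℤ) ≤ (n : ℤ) ^ 2 := one_le_pow₀ hn1
  have hn0 : (0 : ℤ) ≤ (n : ℤ) ^ 2 := by linarith
  have hCC : C * (n : ℤ) ^ 2 ≤ C1 * (n : ℤ) ^ 2 := by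
    apply mul_le_mul_of_nonneg_right _ hn0
    rw [hC1]; linarith [le_abs_self C]
  have hco' : |tfa N| ≤ C1 * (n : ℤ) ^ 2 ∧ |tfb N| ≤ C1 * (n : ℤ) ^ 2 ∧
      |tfh N| ≤ C1 * (n : ℤ) ^ 2 ∧ |tfk N| ≤ C1 * (n : ℤ) ^ 2 ∧ |tfd N| ≤ C1 * (n : ℤ) ^ 2 ∧
      |tfe N| ≤ C1 * (n : ℤ) ^ 2 := by
    obtain ⟨h1, h2, h3, h4, h5, h6⟩ := hco
    exact ⟨by linarith, by linarith, by linarith, by linarith, by linarith, by linarith⟩
  have hbd := wit_bound C1 n N hco'
  -- embedding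
  obtain ⟨y0, hy0, hy0'⟩ := hsqv 0
  have ha0 : tfa N = y0 ^ 2 := by
    rw [← hy0']
    simp [ev, vv]
  obtain ⟨α, β, γ, hrep⟩ := hemb N Y (hiso N y0 Y ha0 hy0 hY) hY hY0
  -- factors
  have hf : ∀ u : Fin 5, ∃ l l' m m' : ℤ, IsCoprime l l' ∧ l * m = lin α (vv u) ∧
      l * m' + l' * m = 2 * lin β (vv u) ∧ l' * m' = lin γ (vv u) ∧
      |bq (lin α v6) (lin β v6) (lin γ v6) (-l') l| ≤
        |bq (lin α v6) (lin β v6) (lin γ v6) (-m') m| := by
    intro u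
    obtain ⟨y, hy, hy'⟩ := hsqv u
    exact wit_fact hfact N α β γ hrep (vv u) v6 y hy hy'
  choose l l' m m' hcop h1 h2 h3 hQle using hf
  set Q : Fin 5 → ℤ := fun u => |bq (lin α v6) (lin β v6) (lin γ v6) (-l' u) (l u)| with hQ
  obtain ⟨a, -, hamin⟩ := Finset.exists_min_image Finset.univ Q ⟨0, Finset.mem_univ _⟩
  have hV : lin α v6 * lin γ v6 - lin β v6 ^ 2 = -ev N v6 := by
    rw [hrep v6]; ring
  have hVn : (n : ℤ) ^ 2 ≤ lin α v6 * lin γ v6 - lin β v6 ^ 2 := by rw [hV]; linarith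
  have hQpos : ∀ u, 0 < Q u := by
    intro u
    apply wit_pos _ _ _ _ _ (by linarith)
    by_contra hcon
    push Not at hcon
    obtain ⟨hc1, hc2⟩ := hcon
    have hc3 : l' u = 0 := by linarith
    have := hcop u
    rw [hc2, hc3] at this
    exact (not_isCoprime_zero_zero this)
  have hQm : ∀ u, Q u * |bq (lin α v6) (lin β v6) (lin γ v6) (-m' u) (m u)| ≤
      K0 * (n : ℤ) ^ 4 := by
    intro u
    have h4 := hbra N α β γ hrep (vv u) v6 (l u) (l' u) (m u) (m' u) (h1 u) (h2 u) (h3 u)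
    exact wit_prod C1 n _ _ _ (hbd u).1 (hbd u).2.1 (hbd u).2.2 _ _ h4
  have hQK : ∀ u, Q u ≤ K0 * (n : ℤ) ^ 2 := by
    intro u
    apply wit_sq (Q u) _ K0 ((n : ℤ) ^ 2) (hQpos u).le (by linarith) hn0 (hQle u)
    have := hQm u
    rw [← pow_mul]
    exact this
  -- the root of the smallest factor
  have hfa : bq (lin α (vv a)) (lin β (vv a)) (lin γ (vv a)) (-l' a) (l a) = 0 := by
    simp only [bq]
    rw [← h1 a, ← h2 a, ← h3 a]
    ring
  obtain ⟨b, hba, hang⟩ := wit_angle α β γ a (-l' a) (l a) hfa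
  have hfb : bq (lin α (vv b)) (lin β (vv b)) (lin γ (vv b)) (-l' a) (l a) =
      (l a * l' b - l' a * l b) * (l a * m' b - l' a * m b) := by
    simp only [bq]
    rw [← h1 b, ← h2 b, ← h3 b]
    ring
  have hdet : l a * l' b - l' a * l b ≠ 0 := by
    intro h0
    rw [hfb, h0, zero_mul, abs_zero, mul_zero] at hang
    have := hQpos a
    simp only [hQ] at this
    linarith
  obtain ⟨g11, g12, g21, g22, s, D, κ, hg, hga, hs, hD, hκ, hκ0, hκD⟩ :=
    hnorm (l a) (l' a) (l b) (l' b) (hcop a) (hcop b) hdet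
  have hD0 : 0 < D := by linarith
  have hs2 : s * s = 1 := by rcases hs with rfl | rfl <;> norm_num
  obtain ⟨α', β', γ', hrep', hnew⟩ := hsub N α β γ hrep g11 g12 g21 g22 hg
  -- the new factors
  set P : Fin 5 → ℤ := fun u => l u * g11 + l' u * g21 with hP
  set P' : Fin 5 → ℤ := fun u => l u * g12 + l' u * g22 with hP'
  set R : Fin 5 → ℤ := fun u => m u * g11 + m' u * g21 with hR
  set R' : Fin 5 → ℤ := fun u => m u * g12 + m' u * g22 with hR'
  have e1 : ∀ u, P u * R u = lin α' (vv u) := by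
    intro u
    rw [(hnew (vv u)).1]
    simp only [bq, hP, hR]
    rw [← h1 u, ← h2 u, ← h3 u]
    ring
  have e2 : ∀ u, P u * R' u + P' u * R u = 2 * lin β' (vv u) := by
    intro u
    rw [(hnew (vv u)).2.1]
    have h4 : 2 * (lin α (vv u) * (g11 * g12) + lin β (vv u) * (g11 * g22 + g12 * g21) +
        lin γ (vv u) * (g21 * g22)) = 2 * lin α (vv u) * (g11 * g12) +
        (2 * lin β (vv u)) * (g11 * g22 + g12 * g21) + 2 * lin γ (vv u) * (g21 * g22) := by ring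
    rw [h4, ← h1 u, ← h2 u, ← h3 u]
    simp only [hP, hP', hR, hR']
    ring
  have e3 : ∀ u, P' u * R' u = lin γ' (vv u) := by
    intro u
    rw [(hnew (vv u)).2.2.1]
    simp only [bq, hP', hR']
    rw [← h1 u, ← h2 u, ← h3 u]
    ring
  have eq : ∀ (t : V3) (x x' : ℤ), bq (lin α' t) (lin β' t) (lin γ' t)
      (-(x * g12 + x' * g22)) (x * g11 + x' * g21) =
        bq (lin α t) (lin β t) (lin γ t) (-x') x := by
    intro t x x'
    rw [(hnew t).2.2.2]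
    congr 1
    · linear_combination (-x') * hg
    · linear_combination x * hg
  set a6 := lin α' v6 with ha6
  set b6 := lin β' v6 with hb6
  set c6 := lin γ' v6 with hc6
  have hQn : ∀ u, |bq a6 b6 c6 (-P' u) (P u)| = Q u := by
    intro u
    simp only [hQ, hP, hP', ha6, hb6, hc6]
    rw [eq]
  have hQn' : ∀ u, |bq a6 b6 c6 (-R' u) (R u)| =
      |bq (lin α v6) (lin β v6) (lin γ v6) (-m' u) (m u)| := by
    intro u
    simp only [hR, hR', ha6, hb6, hc6]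
    rw [eq]
  have hPa : P a = 0 := hga
  have hPa' : P' a ^ 2 = 1 := by
    have h4 : l a = -(P' a * g21) := by
      simp only [hP'] 
      linear_combination (-l a) * hg + g22 * hga
    have h5 : l' a = P' a * g11 := by
      simp only [hP'] 
      linear_combination (-l' a) * hg - g12 * hga
    have h6 := hcop a
    obtain ⟨x, y, hxy⟩ := h6
    have h7 : P' a * (-(x * g21) + y * g11) = 1 := by
      rw [← hxy, h4, h5]; ring
    rcases Int.eq_one_or_neg_one_of_mul_eq_one h7 with h8 | h8 <;> rw [h8] <;> norm_num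
  -- values at the root of the smallest factor
  have hfz : ∀ t : V3, lin α' t = bq (lin α t) (lin β t) (lin γ t) (-l' a) (l a) := by
    intro t
    rw [← eq t (l a) (l' a)]
    have h4 : l a * g11 + l' a * g21 = 0 := hga
    have h5 : (l a * g12 + l' a * g22) ^ 2 = 1 := hPa'
    rw [h4]
    simp only [bq]
    linear_combination (-(lin α' t)) * h5
  have hQa : |a6| = Q a := by
    rw [ha6, hfz]
  have hαa : lin α' (vv a) = 0 := by rw [hfz, hfa]
  have hPb : P b = s * D := by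
    rw [← hD, ← mul_assoc, hs2, one_mul]
  have hPb' : P' b = -(s * κ) := by
    have : s * (s * (l b * g12 + l' b * g22)) = s * (-κ) := by rw [hκ]
    rw [← mul_assoc, hs2, one_mul] at this
    simp only [hP']
    linarith only [this]
  -- nonvanishing
  have hnz : ∀ t u : Fin 5, t ≠ u → bq (lin α' (vv u)) (lin β' (vv u)) (lin γ' (vv u))
      (-P' t) (P t) ≠ 0 := by
    intro t u htu h0
    have h4 := hbra N α' β' γ' hrep' (vv t) (vv u) (P t) (P' t) (R t) (R' t) (e1 t) (e2 t) (e3 t)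
    rw [h0, zero_mul] at h4
    exact hpol t u htu (by linarith only [h4])
  have hnza : ∀ u, u ≠ a → lin α' (vv u) ≠ 0 := by
    intro u hu h0
    apply hnz a u (Ne.symm hu)
    rw [hPa, h0]
    simp [bq]
  -- the inequalities
  have hsq : ∀ x x' : ℤ, bq a6 b6 c6 (s * x') (s * x) = bq a6 b6 c6 x' x := by
    intro x x'
    simp only [bq]
    linear_combination (a6 * x' ^ 2 + 2 * b6 * x' * x + c6 * x ^ 2) * hs2
  have hQb : |bq a6 b6 c6 κ D| = Q b := by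
    rw [← hQn b, hPb, hPb', neg_neg, hsq]
  have hQb' : |bq a6 b6 c6 (-(s * R' b)) (s * R b)| =
      |bq (lin α v6) (lin β v6) (lin γ v6) (-m' b) (m b)| := by
    rw [← hQn' b]
    have : -(s * R' b) = s * (-R' b) := by ring
    rw [this, hsq]
  have hV' : (n : ℤ) ^ 2 ≤ a6 * c6 - b6 ^ 2 := by
    have := hrep' v6
    rw [← ha6, ← hb6, ← hc6] at this
    linarith only [this, hv6]
  have hDrb : D * (s * R b) = lin α' (vv b) := by
    rw [← e1 b, hPb]; ring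
  have hang' : |a6| ≤ K0 * |D * (s * R b)| := by
    rw [hDrb, hQa, hfz]
    refine le_trans hang ?_
    exact mul_le_mul_of_nonneg_right hK0' (abs_nonneg _)
  obtain ⟨i1, i2, i3⟩ := hine n a6 b6 c6 D κ (s * R b) (s * R' b) hn hV' hD0
    (by rw [hQb, hQb']; exact hQm b) hang'
  have hprod : ∀ u, |bq a6 b6 c6 (-P' u) (P u)| * |bq a6 b6 c6 (-R' u) (R u)| ≤
      K0 * (n : ℤ) ^ 4 := by
    intro u
    rw [hQn, hQn']
    exact hQm u
  obtain ⟨σ, hσ0, hσ1⟩ := wit_perm a b (Ne.symm hba)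
  have hne : ∀ x : Fin 5, x ≠ 0 → σ x ≠ a := by
    intro x hx h0
    rw [← hσ0] at h0
    exact hx (σ.injective h0)
  have hne' : ∀ x : Fin 5, x ≠ 1 → σ x ≠ b := by
    intro x hx h0
    rw [← hσ1] at h0
    exact hx (σ.injective h0)
  have hK0K : K0 ≤ K := by rw [hK]; linarith only [hK']
  have hK'K : K' ≤ K := by rw [hK]; linarith only [hK0']
  have hn4 : (0 : ℤ) ≤ (n : ℤ) ^ 4 := by positivity
  have j1 : ∀ u, |lin α' (vv u)| ≤ K * Q a := by
    intro u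
    rw [← e1 u, ← hQa]
    refine le_trans (i3 (P u) (P' u) (R u) (R' u) (hprod u)).1 ?_
    exact mul_le_mul_of_nonneg_right hK'K (abs_nonneg _)
  have j2 : ∀ u, (P u * κ + P' u * D) ^ 2 * Q a ≤ K * Q u * D ^ 2 := by
    intro u
    have h4 := (i3 (P u) (P' u) (R u) (R' u) (hprod u)).2.1
    rw [hQa, hQn] at h4
    refine le_trans h4 ?_
    have h5 : 0 ≤ Q u * D ^ 2 := mul_nonneg (hQpos u).le (sq_nonneg D)
    have h6 := mul_le_mul_of_nonneg_right hK'K h5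
    rw [mul_assoc, mul_assoc]
    exact h6
  have j3 : ∀ u, (R u * κ + R' u * D) ^ 2 * Q a * Q u ≤ K * (n : ℤ) ^ 4 * D ^ 2 := by
    intro u
    have h4 := (i3 (P u) (P' u) (R u) (R' u) (hprod u)).2.2
    rw [hQa, hQn] at h4
    refine le_trans h4 ?_
    have h5 : 0 ≤ (n : ℤ) ^ 4 * D ^ 2 := mul_nonneg hn4 (sq_nonneg D)
    have h6 := mul_le_mul_of_nonneg_right hK'K h5
    rw [mul_assoc, mul_assoc]
    exact h6
  have j4 : D ^ 2 * (n : ℤ) ^ 2 ≤ K * Q a * Q b := by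
    rw [hQa, hQb] at i2
    have h5 : 0 ≤ Q a * Q b := mul_nonneg (hQpos a).le (hQpos b).le
    have hK1 : (1 : ℤ) ≤ K := le_trans (by linarith only [hK0']) hK0K
    have h6 := mul_le_mul_of_nonneg_right hK1 h5
    rw [one_mul] at h6
    rw [mul_assoc K]
    exact le_trans i2 h6
  have j5 : ∀ u, Q u ≤ K * (n : ℤ) ^ 2 := by
    intro u
    refine le_trans (hQK u) ?_
    exact mul_le_mul_of_nonneg_right hK0K hn0
  have j6 : P (σ 4) * κ + P' (σ 4) * D ≠ 0 := by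
    intro h0
    apply hnz b (σ 4) (Ne.symm (hne' 4 (by decide)))
    rw [hPb, hPb', neg_neg]
    have h4 : bq (lin α' (vv (σ 4))) (lin β' (vv (σ 4))) (lin γ' (vv (σ 4))) (s * κ) (s * D) =
        (s * s) * ((P (σ 4) * κ + P' (σ 4) * D) * (R (σ 4) * κ + R' (σ 4) * D)) := by
      simp only [bq]
      rw [← e1 (σ 4), ← e2 (σ 4), ← e3 (σ 4)]
      ring
    rw [h4, h0]
    ring
  refine ⟨σ, Q a, Q b, Q (σ 2), Q (σ 3), Q (σ 4), α', β', γ', D, κ, s * R b, s * R' b,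
    P (σ 2), P' (σ 2), R (σ 2), R' (σ 2), P (σ 3), P' (σ 3), R (σ 3), R' (σ 3),
    P (σ 4), P' (σ 4), R (σ 4), R' (σ 4), hrep', ?_, ?_, ?_, ?_, ?_, ⟨hκ0, hκD⟩, ?_, ?_, j4,
    ⟨j2 _, j2 _, j2 _⟩, ⟨j3 _, j3 _⟩, ?_, ⟨j5 _, j5 _, j5 _, j5 _⟩⟩
  · rw [hσ0]; exact hαa
  · rw [hσ1]
    refine ⟨hDrb.symm, ?_, ?_⟩
    · rw [← e2 b, hPb, hPb']; ring
    · rw [← e3 b, hPb']; ring
  · exact ⟨(e1 _).symm, (e2 _).symm, (e3 _).symm⟩
  · exact ⟨(e1 _).symm, (e2 _).symm, (e3 _).symm⟩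
  · exact ⟨(e1 _).symm, (e2 _).symm, (e3 _).symm⟩
  · exact ⟨hnza _ (hne 1 (by decide)), hnza _ (hne 2 (by decide)), hnza _ (hne 3 (by decide)),
      hnza _ (hne 4 (by decide)), j6⟩
  · exact ⟨j1 _, j1 _⟩
  · refine ⟨?_, hamin _ (Finset.mem_univ _), hamin _ (Finset.mem_univ _),
      hamin _ (Finset.mem_univ _), hamin _ (Finset.mem_univ _)⟩
    have := hQpos a
    linarith only [this]

end Pool.Helper17.R5
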